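import Mathlib

set_option autoImplicit false

namespace Pool.Agent.Q216.NR

open Module

section
variable {D : Type} [DivisionRing D] {V : Type} [AddCommGroup V] [Module D V]

/-- Chain data of an endomorphism. -/
def CD {ι : Type} [Fintype ι] (N : V →ₗ[D] V) (k : ι → ℕ) (v : ι → V) : Prop :=
  (∀ i, (N ^ k i) (v i) = 0) ∧
  (∀ S : Submodule D V, (∀ i, v i ∈ S) → (∀ x ∈ S, N x ∈ S) → S = ⊤) ∧
  ∑ i, k i = finrank D V

theorem CD.zero_of_le {ι : Type} [Fintype ι] {N : V →ₗ[D] V} {k : ι → ℕ} {v : ι → V}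
    (h : CD N k v) {i : ι} {j : ℕ} (hj : k i ≤ j) : (N ^ j) (v i) = 0 := by
  obtain ⟨m, rfl⟩ := Nat.exists_eq_add_of_le' hj
  rw [pow_add, Module.End.mul_apply, h.1 i, map_zero]

theorem CD.basis [Module.Finite D V] {ι : Type} [Fintype ι] {N : V →ₗ[D] V} {k : ι → ℕ}
    {v : ι → V} (h : CD N k v) :
    ∃ b : Basis (Σ i, Fin (k i)) D V, ∀ i (j : Fin (k i)), b ⟨i, j⟩ = (N ^ (j : ℕ)) (v i) := by
  have hspan : Submodule.span D (Set.range (fun p : Σ i, Fin (k i) =>
      (N ^ (p.2 : ℕ)) (v p.1))) = ⊤ := by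
    apply h.2.1
    · intro i
      by_cases hk : k i = 0
      · have := h.1 i
        rw [hk] at this
        simp at this
        rw [this]
        exact zero_mem _
      · exact Submodule.subset_span ⟨⟨i, ⟨0, by omega⟩⟩, by simp⟩
    · intro x hx
      induction hx using Submodule.span_induction with
      | mem x hx =>
        obtain ⟨⟨i, j⟩, rfl⟩ := hx
        have e1 : N ((N ^ (j : ℕ)) (v i)) = (N ^ ((j : ℕ) + 1)) (v i) := by
          rw [pow_succ']; rfl
        simp only
        rw [e1]
        by_cases hj : (j : ℕ) + 1 < k i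
        · exact Submodule.subset_span ⟨⟨i, ⟨j + 1, hj⟩⟩, rfl⟩
        · rw [h.zero_of_le (by omega)]
          exact zero_mem _
      | zero => simp
      | add x y _ _ hx hy => rw [map_add]; exact add_mem hx hy
      | smul a x _ hx => rw [map_smul]; exact Submodule.smul_mem _ _ hx
  have hcard : Fintype.card (Σ i, Fin (k i)) = finrank D V := by simp [h.2.2]
  refine ⟨basisOfTopLeSpanOfCardEqFinrank _ hspan.ge hcard, fun i j => by simp⟩

theorem CD.rank [Module.Finite D V] {ι : Type} [Fintype ι] {N : V →ₗ[D] V} {k : ι → ℕ}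
    {v : ι → V} (h : CD N k v) (m : ℕ) :
    finrank D (LinearMap.range (N ^ m)) = ∑ i, (k i - m) := by
  obtain ⟨b, hb⟩ := h.basis
  let w : (Σ i, Fin (k i - m)) → V := fun p => (N ^ ((p.2 : ℕ) + m)) (v p.1)
  let f : (Σ i, Fin (k i - m)) → (Σ i, Fin (k i)) := fun p => ⟨p.1, ⟨(p.2 : ℕ) + m, by omega⟩⟩
  have hf : Function.Injective f := by
    rintro ⟨i, a⟩ ⟨j, c⟩ hac
    simp only [f, Sigma.mk.injEq] at hac
    obtain ⟨h1, h2⟩ := hac
    subst h1
    simp only [heq_eq_eq, Fin.mk.injEq, Nat.add_right_cancel_iff] at h2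
    rw [Fin.ext h2]
  have hw : w = b ∘ f := by
    funext p
    simp [w, f, hb]
  have hli : LinearIndependent D w := by
    rw [hw]; exact b.linearIndependent.comp f hf
  have hr : LinearMap.range (N ^ m) = Submodule.span D (Set.range w) := by
    apply le_antisymm
    · rw [LinearMap.range_eq_map, ← b.span_eq, Submodule.map_span, Submodule.span_le]
      rintro x ⟨y, ⟨⟨i, j⟩, rfl⟩, rfl⟩
      rw [hb, ← Module.End.mul_apply, ← pow_add]
      by_cases hj : (j : ℕ) + m < k i
      · refine Submodule.subset_span ⟨⟨i, ⟨j, by omega⟩⟩, ?_⟩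
        simp [w, add_comm]
      · rw [h.zero_of_le (by omega)]
        exact zero_mem _
    · rw [Submodule.span_le]
      rintro x ⟨p, rfl⟩
      refine ⟨(N ^ (p.2 : ℕ)) (v p.1), ?_⟩
      simp only [w]
      rw [← Module.End.mul_apply, ← pow_add, add_comm]
  rw [hr, finrank_span_eq_card hli]
  simp

theorem interp {N : V →ₗ[D] V} {k : ℕ} {v : V} (φ : V →ₗ[D] D) (hN : N ^ k = 0)
    (hφ : φ ((N ^ (k - 1)) v) = 1) (t : ℕ → D) :
    ∀ m ≤ k, ∃ y ∈ Submodule.span D (Set.range fun j : ℕ => (N ^ j) v),
      ∀ j, k - m ≤ j → j < k → φ ((N ^ j) y) = t j := by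
  intro m
  induction m with
  | zero => intro _; exact ⟨0, zero_mem _, fun j h1 h2 => by omega⟩
  | succ m ih =>
    intro hm
    obtain ⟨y, hy, hy2⟩ := ih (by omega)
    refine ⟨y + (t (k - (m + 1)) - φ ((N ^ (k - (m + 1))) y)) • (N ^ m) v,
      add_mem hy (Submodule.smul_mem _ _ (Submodule.subset_span ⟨m, rfl⟩)), ?_⟩
    intro j h1 h2
    rw [map_add, map_add, map_smul, map_smul, ← Module.End.mul_apply, ← pow_add]
    by_cases hj : j = k - (m + 1)
    · subst hj
      have e1 : k - (m + 1) + m = k - 1 := by omega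
      rw [e1, hφ]
      simp
    · rw [hy2 j (by omega) h2, pow_eq_zero_of_le (show k ≤ j + m by omega) hN]
      simp

theorem exists_chain (n : ℕ) : ∀ (V : Type) [AddCommGroup V] [Module D V] [Module.Finite D V],
    finrank D V = n → ∀ N : V →ₗ[D] V, IsNilpotent N →
    ∃ (ι : Type) (_ : Fintype ι) (k : ι → ℕ) (v : ι → V),
      CD N k v ∧ Fintype.card ι = n := by
  induction n using Nat.strong_induction_on with
  | _ n ih =>
  intro V _ _ _ hn N hN
  by_cases h0 : n = 0
  · subst h0
    have hs : Subsingleton V := finrank_zero_iff.mp hn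
    refine ⟨Fin 0, inferInstance, fun _ => 0, fun i => i.elim0, ⟨fun i => i.elim0, ?_, ?_⟩, by simp⟩
    · intro S _ _
      exact Subsingleton.elim _ _
    · simp [hn]
  · have hnt : Nontrivial V := by
      rw [← finrank_pos_iff (R := D)]
      omega
    have hnt2 : Nontrivial (V →ₗ[D] V) := by
      refine ⟨⟨LinearMap.id, 0, ?_⟩⟩
      intro h
      obtain ⟨x, hx⟩ := exists_ne (0 : V)
      exact hx (by simpa using LinearMap.congr_fun h x)
    set k := nilpotencyClass N with hk
    have hNk : N ^ k = 0 := pow_nilpotencyClass hN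
    have hk1 : N ^ (k - 1) ≠ 0 := pow_pred_nilpotencyClass hN
    have hkpos : 0 < k := by
      rcases Nat.eq_zero_or_pos k with h | h
      · rw [h] at hNk
        exact absurd hNk (by simp)
      · exact h
    obtain ⟨v, hv⟩ : ∃ v, (N ^ (k - 1)) v ≠ 0 := by
      by_contra hcon
      push Not at hcon
      exact hk1 (LinearMap.ext hcon)
    obtain ⟨φ, hφ⟩ : ∃ φ : V →ₗ[D] D, φ ((N ^ (k - 1)) v) = 1 := by
      set w := (N ^ (k - 1)) v with hw
      let b := Module.finBasis D V
      have h1 : b.repr w ≠ 0 := by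
        intro h
        exact hv (by simpa using h)
      obtain ⟨i, hi⟩ := Finsupp.ne_iff.mp h1
      refine ⟨(LinearMap.toSpanSingleton D D (b.coord i w)⁻¹) ∘ₗ b.coord i, ?_⟩
      simp only [LinearMap.comp_apply, LinearMap.toSpanSingleton_apply, smul_eq_mul]
      exact mul_inv_cancel₀ (by simpa using hi)
    let Φ : V →ₗ[D] (Fin k → D) := LinearMap.pi (fun j => φ ∘ₗ (N ^ (j : ℕ)))
    have hΦ : ∀ x j, Φ x j = φ ((N ^ (j : ℕ)) x) := fun x j => rfl
    have hsurj : LinearMap.range Φ = ⊤ := by
      rw [LinearMap.range_eq_top]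
      intro t
      obtain ⟨y, _, hy⟩ := interp φ hNk hφ (fun j => if h : j < k then t ⟨j, h⟩ else 0) k le_rfl
      refine ⟨y, ?_⟩
      funext j
      rw [hΦ, hy j (by omega) j.2]
      simp
    have hfr : finrank D (LinearMap.ker Φ) + k = n := by
      have := LinearMap.finrank_range_add_finrank_ker Φ
      rw [hsurj, finrank_top, finrank_fin_fun, hn] at this
      omega
    have hinv : ∀ x ∈ LinearMap.ker Φ, N x ∈ LinearMap.ker Φ := by
      intro x hx
      rw [LinearMap.mem_ker] at hx ⊢
      funext j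
      rw [hΦ, ← Module.End.mul_apply, ← pow_succ]
      by_cases hj : (j : ℕ) + 1 < k
      · have := congrFun hx ⟨j + 1, hj⟩
        rw [hΦ] at this
        simpa using this
      · rw [pow_eq_zero_of_le (show k ≤ (j : ℕ) + 1 by omega) hNk]
        simp
    have hpr : ∀ m : ℕ, ∀ x : LinearMap.ker Φ,
        ((((N.restrict hinv) ^ m) x : LinearMap.ker Φ) : V) = (N ^ m) (x : V) := by
      intro m
      induction m with
      | zero => intro x; simp
      | succ m ihm =>
        intro x
        rw [pow_succ, pow_succ, Module.End.mul_apply, Module.End.mul_apply, ihm]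
        rfl
    have hnil : IsNilpotent (N.restrict hinv) := by
      refine ⟨k, ?_⟩
      apply LinearMap.ext
      intro x
      apply Subtype.ext
      rw [hpr, hNk]
      simp
    obtain ⟨ι', _, k', v', ⟨hc1, hc2, hc3⟩, hcard⟩ := ih _ (by omega)
      (LinearMap.ker Φ) rfl (N.restrict hinv) hnil
    refine ⟨ι' ⊕ Fin k, inferInstance, Sum.elim k' (fun j => if (j : ℕ) = 0 then k else 0),
      Sum.elim (fun i => (v' i : V)) (fun j => if (j : ℕ) = 0 then v else 0), ⟨?_, ?_, ?_⟩, ?_⟩
    · rintro (i | j)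
      · simp only [Sum.elim_inl]
        rw [← hpr, hc1]
        rfl
      · simp only [Sum.elim_inr]
        split_ifs
        · rw [hNk]; simp
        · simp
    · intro S hS1 hS2
      have hv1 : v ∈ S := by
        have := hS1 (Sum.inr ⟨0, hkpos⟩)
        simpa using this
      have hC : LinearMap.ker Φ ≤ S := by
        have := hc2 (S.comap (LinearMap.ker Φ).subtype)
          (fun i => by simpa using hS1 (Sum.inl i)) (fun x hx => hS2 _ hx)
        intro x hx
        have hm : (⟨x, hx⟩ : LinearMap.ker Φ) ∈ S.comap (LinearMap.ker Φ).subtype := by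
          rw [this]; trivial
        exact hm
      have hpv : ∀ j, (N ^ j) v ∈ S := by
        intro j
        induction j with
        | zero => simpa using hv1
        | succ j ihj =>
          rw [pow_succ', Module.End.mul_apply]
          exact hS2 _ ihj
      rw [eq_top_iff]
      intro x _
      obtain ⟨y, hy, hy2⟩ := interp φ hNk hφ (fun j => φ ((N ^ j) x)) k le_rfl
      have hyS : y ∈ S := by
        have : Submodule.span D (Set.range fun j : ℕ => (N ^ j) v) ≤ S := by
          rw [Submodule.span_le]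
          rintro _ ⟨j, rfl⟩
          exact hpv j
        exact this hy
      have hxy : x - y ∈ LinearMap.ker Φ := by
        rw [LinearMap.mem_ker]
        funext j
        rw [hΦ, map_sub, map_sub, hy2 j (by omega) j.2]
        simp
      have := add_mem (hC hxy) hyS
      simpa using this
    · rw [Fintype.sum_sum_type]
      simp only [Sum.elim_inl, Sum.elim_inr]
      rw [hc3, hn, ← hfr]
      congr 1
      obtain ⟨k1, hk1⟩ : ∃ k1, k = k1 + 1 := ⟨k - 1, by omega⟩
      generalize k = k0 at *
      subst hk1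
      rw [Fin.sum_univ_succ]
      simp
    · rw [Fintype.card_sum, hcard, Fintype.card_fin, hfr]

end

end Pool.Agent.Q216.NR
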