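import Pool.Agent.Q216.NR.Chain

set_option autoImplicit false

namespace Pool.Agent.Q216.NR

open Module

/-- At most one size strictly between consecutive multiples of `p`. -/
def Star {ι : Type} (p : ℕ) (k : ι → ℕ) : Prop :=
  ∀ (u : ℕ) (i j : ι), p * u < k i → k i < p * (u + 1) → p * u < k j → k j < p * (u + 1) → i = j

theorem star_G {ι : Type} [Fintype ι] {p : ℕ} (hp : 0 < p) {k : ι → ℕ} (h : Star p k) (u : ℕ) :
    ∃ M r : ℕ, r < p ∧ ∀ t ≤ p,
      ∑ i, (k i - (p * u + t)) = ∑ i, (k i - p * (u + 1)) + (p - t) * M + (r - t) := by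
  classical
  have hmul : p * (u + 1) = p * u + p := by ring
  have hdec : ∀ t ≤ p, ∀ i, k i - (p * u + t) = (k i - p * (u + 1)) +
      (p - t) * (if p * (u + 1) ≤ k i then 1 else 0) +
      (if p * u < k i ∧ k i < p * (u + 1) then k i - p * u - t else 0) := by
    intro t ht i
    by_cases h1 : p * (u + 1) ≤ k i
    · rw [if_pos h1, if_neg (by omega)]
      omega
    · rw [if_neg h1]
      by_cases h2 : p * u < k i
      · rw [if_pos (by omega)]
        omega
      · rw [if_neg (by omega)]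
        omega
  have hsum : ∀ t ≤ p, ∑ i, (k i - (p * u + t)) = ∑ i, (k i - p * (u + 1)) +
      (p - t) * (∑ i, (if p * (u + 1) ≤ k i then 1 else 0)) +
      ∑ i, (if p * u < k i ∧ k i < p * (u + 1) then k i - p * u - t else 0) := by
    intro t ht
    rw [Finset.mul_sum, ← Finset.sum_add_distrib, ← Finset.sum_add_distrib]
    exact Finset.sum_congr rfl (fun i _ => hdec t ht i)
  by_cases hex : ∃ i0, p * u < k i0 ∧ k i0 < p * (u + 1)
  · obtain ⟨i0, hi0⟩ := hex
    refine ⟨∑ i, (if p * (u + 1) ≤ k i then 1 else 0), k i0 - p * u, by omega, fun t ht => ?_⟩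
    rw [hsum t ht]
    congr 1
    rw [Finset.sum_eq_single i0]
    · rw [if_pos hi0]
    · intro i _ hi
      rw [if_neg]
      intro hcon
      exact hi (h u i i0 hcon.1 hcon.2 hi0.1 hi0.2)
    · intro hh
      exact absurd (Finset.mem_univ _) hh
  · refine ⟨∑ i, (if p * (u + 1) ≤ k i then 1 else 0), 0, hp, fun t ht => ?_⟩
    rw [hsum t ht]
    congr 1
    rw [Finset.sum_eq_zero]
    · simp
    · intro i _
      rw [if_neg]
      intro hcon
      exact hex ⟨i, hcon⟩

theorem star_eq {ι ι' : Type} [Fintype ι] [Fintype ι'] {p : ℕ} (hp : 0 < p) {k : ι → ℕ}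
    {k' : ι' → ℕ} (h : Star p k) (h' : Star p k')
    (hR : ∀ j, ∑ i, (k i - p * j) = ∑ i, (k' i - p * j)) (s : ℕ) :
    ∑ i, (k i - s) = ∑ i, (k' i - s) := by
  have hs : s = p * (s / p) + s % p := (Nat.div_add_mod s p).symm
  set u := s / p
  have hlt : s % p < p := Nat.mod_lt _ hp
  set t := s % p
  obtain ⟨M, r, hr, hM⟩ := star_G hp h u
  obtain ⟨M', r', hr', hM'⟩ := star_G hp h' u
  have e0 := hM 0 (by omega)
  have e0' := hM' 0 (by omega)
  have e1 := hR u
  have e2 := hR (u + 1)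
  simp only [add_zero, Nat.sub_zero] at e0 e0'
  have e3 : p * M + r = p * M' + r' := by omega
  have e4 : r = r' := by
    have := congrArg (fun x => x % p) e3
    simp only [Nat.mul_add_mod] at this
    rwa [Nat.mod_eq_of_lt hr, Nat.mod_eq_of_lt hr'] at this
  have e5 : M = M' := by
    rw [e4] at e3
    exact Nat.eq_of_mul_eq_mul_left hp (by omega)
  rw [hs, hM t hlt.le, hM' t hlt.le, e4, e5, e2]

theorem star_equiv {ι ι' : Type} [Fintype ι] [Fintype ι'] {p : ℕ} (hp : 0 < p) {k : ι → ℕ}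
    {k' : ι' → ℕ} (h : Star p k) (h' : Star p k') (hcard : Fintype.card ι = Fintype.card ι')
    (hR : ∀ j, ∑ i, (k i - p * j) = ∑ i, (k' i - p * j)) :
    ∃ σ : ι ≃ ι', ∀ i, k' (σ i) = k i := by
  classical
  have hG := star_eq hp h h' hR
  have key : ∀ {α : Type} [Fintype α] (q : α → ℕ) (s : ℕ), 
      ∑ i, (q i - s) + ∑ i, (q i - (s + 2)) = 2 * ∑ i, (q i - (s + 1)) +
        (Finset.univ.filter (fun i => q i = s + 1)).card := by
    intro α _ q s
    rw [Finset.card_filter, Finset.mul_sum, ← Finset.sum_add_distrib, ← Finset.sum_add_distrib]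
    apply Finset.sum_congr rfl
    intro i _
    split_ifs <;> omega
  have key0 : ∀ {α : Type} [Fintype α] (q : α → ℕ),
      ∑ i, (q i - 0) + (Finset.univ.filter (fun i => q i = 0)).card =
        ∑ i, (q i - (0 + 1)) + Fintype.card α := by
    intro α _ q
    rw [Finset.card_filter, ← Finset.card_univ, Finset.card_eq_sum_ones, 
      ← Finset.sum_add_distrib, ← Finset.sum_add_distrib]
    apply Finset.sum_congr rfl
    intro i _
    split_ifs <;> omega
  have hfib : ∀ s, Fintype.card {i // k i = s} = Fintype.card {i // k' i = s} := by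
    intro s
    rw [Fintype.card_subtype, Fintype.card_subtype]
    rcases Nat.eq_zero_or_pos s with hs | hs
    · subst hs
      have a1 := key0 k
      have a2 := key0 k'
      have a3 := hG 0
      have a4 := hG (0 + 1)
      omega
    · obtain ⟨m, rfl⟩ : ∃ m, s = m + 1 := ⟨s - 1, by omega⟩
      have a1 := key k m
      have a2 := key k' m
      have a3 := hG m
      have a4 := hG (m + 1)
      have a5 := hG (m + 2)
      omega
  refine ⟨Equiv.ofFiberEquiv (f := k) (g := k') (fun s => Fintype.equivOfCardEq (hfib s)), ?_⟩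
  intro i
  exact Equiv.ofFiberEquiv_map _ _

section
variable {D : Type} [DivisionRing D] {V : Type} [AddCommGroup V] [Module D V]

theorem CD.intertwine [Module.Finite D V] {ι ι' : Type} [Fintype ι] [Fintype ι']
    {X X' : V →ₗ[D] V} {k : ι → ℕ} {v : ι → V} {k' : ι' → ℕ} {v' : ι' → V}
    (h : CD X k v) (h' : CD X' k' v') (σ : ι ≃ ι') (hσ : ∀ i, k' (σ i) = k i) :
    ∃ g g' : V →ₗ[D] V, g * g' = 1 ∧ g' * g = 1 ∧ g * X = X' * g := by
  obtain ⟨b, hb⟩ := h.basis
  obtain ⟨b', hb'⟩ := h'.basis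
  let E : (Σ i, Fin (k i)) ≃ (Σ i, Fin (k' i)) :=
    Equiv.sigmaCongr σ (fun i => finCongr (hσ i).symm)
  let g : V ≃ₗ[D] V := b.equiv b' E
  have hg : ∀ i j, g ((X ^ j) (v i)) = (X' ^ j) (v' (σ i)) := by
    intro i j
    by_cases hj : j < k i
    · have e1 := b.equiv_apply ⟨i, ⟨j, hj⟩⟩ b' E
      rw [hb] at e1
      have e2 : E ⟨i, ⟨j, hj⟩⟩ = ⟨σ i, ⟨j, by rw [hσ]; exact hj⟩⟩ := rfl
      rw [e2, hb'] at e1
      exact e1
    · rw [h.zero_of_le (by omega), h'.zero_of_le (by rw [hσ]; omega), map_zero]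
  refine ⟨g.toLinearMap, g.symm.toLinearMap, ?_, ?_, ?_⟩
  · apply LinearMap.ext
    intro x
    simp [Module.End.mul_apply]
  · apply LinearMap.ext
    intro x
    simp [Module.End.mul_apply]
  · apply b.ext
    rintro ⟨i, j⟩
    rw [hb]
    simp only [Module.End.mul_apply, LinearEquiv.coe_coe]
    rw [hg]
    have e1 : X ((X ^ (j : ℕ)) (v i)) = (X ^ ((j : ℕ) + 1)) (v i) := by
      rw [pow_succ']; rfl
    rw [e1, hg, pow_succ']
    rfl

end

end Pool.Agent.Q216.NR
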