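import Pool.Agent.Q216.NR.Chain

set_option autoImplicit false

namespace Pool.Agent.Q216.NR

open Module
open scoped Quaternion

theorem exists_J {V : Type} [AddCommGroup V] [Module ℍ[ℝ] V] [Module.Finite ℍ[ℝ] V]
    (A : V →ₗ[ℍ[ℝ]] V) (hA : IsNilpotent A) :
    ∃ J : V →ₗ[ℍ[ℝ]] V, (∀ x, J (J x) = -x) ∧ (∀ x, J (A x) = A (J x)) := by
  obtain ⟨ι, _, k, v, hcd, _⟩ := exists_chain (finrank ℍ[ℝ] V) V rfl A hA
  obtain ⟨b, hb⟩ := hcd.basis
  let q : ℍ[ℝ] := ⟨0, 1, 0, 0⟩
  have hq : q * q = -1 := by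
    ext <;> simp [q]
  obtain ⟨J, hJ⟩ : ∃ J : V →ₗ[ℍ[ℝ]] V, ∀ s, J (b s) = q • b s :=
    ⟨b.constr ℕ (fun s => q • b s), fun s => b.constr_basis ℕ _ s⟩
  have hJ1 : ∀ i j, J ((A ^ j) (v i)) = q • (A ^ j) (v i) := by
    intro i j
    by_cases hj : j < k i
    · have := hJ ⟨i, ⟨j, hj⟩⟩
      rw [hb] at this
      exact this
    · rw [hcd.zero_of_le (by omega), map_zero, smul_zero]
  refine ⟨J, ?_, ?_⟩
  · have : J ∘ₗ J = -LinearMap.id := by
      apply b.ext
      intro s
      simp only [LinearMap.comp_apply, LinearMap.neg_apply, LinearMap.id_apply]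
      rw [hJ, map_smul, hJ, smul_smul, hq, neg_smul, one_smul]
    intro x
    exact LinearMap.congr_fun this x
  · have : J ∘ₗ A = A ∘ₗ J := by
      apply b.ext
      rintro ⟨i, j⟩
      simp only [LinearMap.comp_apply]
      rw [hb]
      have e1 : A ((A ^ (j : ℕ)) (v i)) = (A ^ ((j : ℕ) + 1)) (v i) := by
        rw [pow_succ']; rfl
      rw [e1, hJ1, hJ1, map_smul, e1]
    intro x
    exact LinearMap.congr_fun this x

theorem exists_Je {V : Type} [AddCommGroup V] [Module ℍ[ℝ] V] [Module.Finite ℍ[ℝ] V]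
    (A e : V →ₗ[ℍ[ℝ]] V) (hA : IsNilpotent A) (he : e * e = e) (hAe : e * A = A * e) :
    ∃ J : V →ₗ[ℍ[ℝ]] V, e * J = J ∧ J * e = J ∧ J * J = -e ∧ J * A = A * J := by
  have hee : ∀ x, e (e x) = e x := fun x => LinearMap.congr_fun he x
  have heA : ∀ x, e (A x) = A (e x) := fun x => LinearMap.congr_fun hAe x
  have hinv : ∀ x ∈ LinearMap.range e, A x ∈ LinearMap.range e := by
    rintro _ ⟨y, rfl⟩
    exact ⟨A y, heA y⟩
  have hpr : ∀ m : ℕ, ∀ x : LinearMap.range e,
      ((((A.restrict hinv) ^ m) x : LinearMap.range e) : V) = (A ^ m) (x : V) := by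
    intro m
    induction m with
    | zero => intro x; simp
    | succ m ihm =>
      intro x
      rw [pow_succ, pow_succ, Module.End.mul_apply, Module.End.mul_apply, ihm]
      rfl
  obtain ⟨m, hm⟩ := hA
  have hnil : IsNilpotent (A.restrict hinv) := by
    refine ⟨m, ?_⟩
    apply LinearMap.ext
    intro x
    apply Subtype.ext
    rw [hpr, hm]
    simp
  obtain ⟨J0, hJ1, hJ2⟩ := exists_J (A.restrict hinv) hnil
  have hfix : ∀ x : LinearMap.range e, e (x : V) = x := by
    rintro ⟨_, y, rfl⟩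
    exact hee y
  have hrr : ∀ x : LinearMap.range e, e.rangeRestrict (x : V) = x := by
    intro x
    apply Subtype.ext
    exact hfix x
  have hre : ∀ x, e.rangeRestrict (e x) = e.rangeRestrict x := by
    intro x
    apply Subtype.ext
    exact hee x
  refine ⟨(LinearMap.range e).subtype ∘ₗ J0 ∘ₗ e.rangeRestrict, ?_, ?_, ?_, ?_⟩
  · apply LinearMap.ext
    intro x
    simp only [Module.End.mul_apply, LinearMap.comp_apply, Submodule.subtype_apply]
    exact hfix _
  · apply LinearMap.ext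
    intro x
    simp only [Module.End.mul_apply, LinearMap.comp_apply, Submodule.subtype_apply]
    rw [hre]
  · apply LinearMap.ext
    intro x
    simp only [Module.End.mul_apply, LinearMap.comp_apply, Submodule.subtype_apply,
      LinearMap.neg_apply]
    rw [hrr, hJ1]
    rfl
  · apply LinearMap.ext
    intro x
    simp only [Module.End.mul_apply, LinearMap.comp_apply, Submodule.subtype_apply]
    have e1 : e.rangeRestrict (A x) = (A.restrict hinv) (e.rangeRestrict x) := by
      apply Subtype.ext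
      exact heA x
    rw [e1, hJ2]
    rfl

end Pool.Agent.Q216.NR
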