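import Mathlib

set_option autoImplicit false

namespace Pool.Agent.Q216.NR

open Polynomial

theorem poly_split (d : ℕ) : ∀ P : ℝ[X], P.natDegree = d → P ≠ 0 → P.eval 0 ≠ 0 →
    ∃ Pm Pp : ℝ[X], P = Pm * Pp ∧ IsCoprime Pm Pp ∧ (∀ x : ℝ, 0 ≤ x → Pm.eval x ≠ 0) ∧
      (∀ x : ℝ, x ≤ 0 → Pp.eval x ≠ 0) := by
  induction d using Nat.strong_induction_on with
  | _ d ih =>
  intro P hd hP0 hP
  by_cases hex : ∃ r : ℝ, r < 0 ∧ P.eval r = 0
  · obtain ⟨r, hr, hr0⟩ := hex
    obtain ⟨Q, hQ⟩ := dvd_iff_isRoot.mpr (show P.IsRoot r from hr0)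
    have hQ0 : Q ≠ 0 := by
      rintro rfl
      exact hP0 (by simpa using hQ)
    have hdeg : Q.natDegree < d := by
      have := natDegree_mul (X_sub_C_ne_zero r) hQ0
      rw [← hQ, natDegree_X_sub_C, hd] at this
      omega
    have hQe : Q.eval 0 ≠ 0 := by
      intro h
      apply hP
      rw [hQ, eval_mul, h, mul_zero]
    obtain ⟨Qm, Qp, h1, h2, h3, h4⟩ := ih _ hdeg Q rfl hQ0 hQe
    refine ⟨(X - C r) * Qm, Qp, by rw [hQ, h1, mul_assoc], ?_, ?_, h4⟩
    · apply IsCoprime.mul_left _ h2
      rw [(irreducible_X_sub_C r).coprime_iff_not_dvd, dvd_iff_isRoot]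
      exact h4 r hr.le
    · intro x hx
      rw [eval_mul]
      apply mul_ne_zero _ (h3 x hx)
      simp only [eval_sub, eval_X, eval_C]
      intro h
      linarith
  · push Not at hex
    refine ⟨1, P, by simp, isCoprime_one_left, by simp, ?_⟩
    intro x hx
    rcases hx.lt_or_eq with h | h
    · exact hex x h
    · rw [h]; exact hP

theorem lin_coprime (a b : ℝ) (ha : a ≠ 0) (Q : ℝ[X]) (h : Q.eval (-b / a) ≠ 0) :
    IsCoprime (C a * X + C b) Q := by
  have e : C a * X + C b = C a * (X - C (-b / a)) := by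
    rw [mul_sub, ← C_mul]
    have : a * (-b / a) = -b := by field_simp
    rw [this, C_neg, sub_neg_eq_add]
  rw [e]
  apply IsCoprime.mul_left
  · refine ⟨C a⁻¹, 0, ?_⟩
    rw [← C_mul, inv_mul_cancel₀ ha]
    simp
  · rw [(irreducible_X_sub_C _).coprime_iff_not_dvd, dvd_iff_isRoot]
    exact h

theorem unit_path {B : Type*} [Ring B] [Algebra ℝ B] (g : B) (hg : IsUnit g)
    (hint : IsIntegral ℝ g) :
    ∃ E : ℝ[X], aeval g E * aeval g E = aeval g E ∧
      ∀ s : ℝ, 0 ≤ s → s ≤ 1 → IsUnit ((1 - s) • g + s • (1 - (2 : ℝ) • aeval g E)) := by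
  obtain ⟨P, hP0, hPe, hPg⟩ : ∃ P : ℝ[X], P ≠ 0 ∧ P.eval 0 ≠ 0 ∧ aeval g P = 0 := by
    obtain ⟨Q, hQ1, hQ2⟩ := exists_eq_pow_rootMultiplicity_mul_and_not_dvd (minpoly ℝ g)
      (minpoly.ne_zero hint) 0
    refine ⟨Q, ?_, ?_, ?_⟩
    · rintro rfl
      exact hQ2 (dvd_zero _)
    · intro h
      exact hQ2 (dvd_iff_isRoot.mpr h)
    · have h1 := minpoly.aeval ℝ g
      rw [hQ1, map_mul] at h1
      simp only [map_zero, sub_zero, map_pow, aeval_X] at h1
      exact (hg.pow _).mul_right_eq_zero.mp h1
  obtain ⟨Pm, Pp, hPP, hcop, hm, hp⟩ := poly_split _ P rfl hP0 hPe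
  obtain ⟨u, w, huw⟩ := hcop
  refine ⟨w * Pp, ?_, ?_⟩
  · have e1 : (w * Pp) * (w * Pp) = w * Pp - (u * w) * P := by
      have : w * Pp = 1 - u * Pm := by rw [← huw]; ring
      calc (w * Pp) * (w * Pp) = (w * Pp) * (1 - u * Pm) := by rw [← this]
        _ = w * Pp - (u * w) * (Pm * Pp) := by ring
        _ = _ := by rw [← hPP]
    have e0 : aeval g (u * w * P) = 0 := by rw [map_mul, hPg, mul_zero]
    rw [← map_mul, e1, map_sub, e0, sub_zero]
  · intro s hs0 hs1
    have hQ : IsCoprime (C (1 - s) * X + C s * (1 - 2 * (w * Pp))) P := by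
      rw [hPP]
      apply IsCoprime.mul_right
      · have e1 : C (1 - s) * X + C s * (1 - 2 * (w * Pp)) =
            (C (1 - s) * X + C (-s)) + (2 * C s * u) * Pm := by
          have : w * Pp = 1 - u * Pm := by rw [← huw]; ring
          rw [this, C_neg]
          ring
        rw [e1]
        apply IsCoprime.add_mul_right_left
        by_cases h1 : s = 1
        · subst h1
          refine ⟨-1, 0, ?_⟩
          simp
        · apply lin_coprime _ _ (by intro h; apply h1; linarith)
          apply hm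
          have : 0 < 1 - s := by
            rcases hs1.lt_or_eq with h | h
            · linarith
            · exact absurd h h1
          rw [neg_neg]
          positivity
      · have e1 : C (1 - s) * X + C s * (1 - 2 * (w * Pp)) =
            (C (1 - s) * X + C s) + (-2 * C s * w) * Pp := by
          ring
        rw [e1]
        apply IsCoprime.add_mul_right_left
        by_cases h1 : s = 1
        · subst h1
          refine ⟨1, 0, ?_⟩
          simp
        · apply lin_coprime _ _ (by intro h; apply h1; linarith)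
          apply hp
          have : 0 < 1 - s := by
            rcases hs1.lt_or_eq with h | h
            · linarith
            · exact absurd h h1
          rw [neg_div]
          have : 0 ≤ s / (1 - s) := by positivity
          linarith
    obtain ⟨a, c, hac⟩ := hQ
    have e2 : ∀ E0 : ℝ[X], (1 - s) • g + s • (1 - (2 : ℝ) • aeval g E0) =
        aeval g (C (1 - s) * X + C s * (1 - 2 * E0)) := by
      intro E0
      rw [map_add, map_mul, map_mul, aeval_C, aeval_C, aeval_X, ← Algebra.smul_def,
        ← Algebra.smul_def, map_sub, map_one, map_mul (aeval g) 2 _, map_ofNat, two_smul,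
        two_mul]
    rw [e2]
    have e3 : aeval g a * aeval g (C (1 - s) * X + C s * (1 - 2 * (w * Pp))) = 1 := by
      have := congrArg (aeval g) hac
      rw [map_add, map_mul, map_mul, hPg, mul_zero, add_zero, map_one] at this
      exact this
    refine ⟨⟨_, aeval g a, ?_, e3⟩, rfl⟩
    rw [← map_mul, mul_comm, map_mul, e3]

theorem aeval_commutes {B : Type*} [Ring B] [Algebra ℝ B] (g A : B) (h : g * A = A * g)
    (E : ℝ[X]) : aeval g E * A = A * aeval g E := by
  induction E using Polynomial.induction_on' with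
  | add p q hp hq => rw [map_add, add_mul, mul_add, hp, hq]
  | monomial m a =>
    rw [aeval_monomial, mul_assoc]
    have : g ^ m * A = A * g ^ m := (Commute.pow_left (show Commute g A from h) m)
    rw [this, ← mul_assoc, ← mul_assoc]
    rw [Algebra.commutes]

theorem pow_add_smul {B : Type*} [Ring B] [Algebra ℝ B] (X Y : B)
    (hY : ∀ j, Y * X ^ j * Y = 0) (t : ℝ) (m : ℕ) :
    (X + t • Y) ^ m = X ^ m + t • ∑ j ∈ Finset.range m, X ^ (m - 1 - j) * Y * X ^ j := by
  induction m with
  | zero => simp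
  | succ m ih =>
    have hYS : Y * ∑ j ∈ Finset.range m, X ^ (m - 1 - j) * Y * X ^ j = 0 := by
      rw [Finset.mul_sum]
      apply Finset.sum_eq_zero
      intro j _
      rw [← mul_assoc, ← mul_assoc, hY, zero_mul]
    have hXS : X * ∑ j ∈ Finset.range m, X ^ (m - 1 - j) * Y * X ^ j =
        ∑ j ∈ Finset.range m, X ^ (m + 1 - 1 - j) * Y * X ^ j := by
      rw [Finset.mul_sum]
      apply Finset.sum_congr rfl
      intro j hj
      rw [Finset.mem_range] at hj
      rw [← mul_assoc, ← mul_assoc, ← pow_succ']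
      congr 3
      omega
    rw [pow_succ', ih, Finset.sum_range_succ, ← hXS]
    rw [add_mul, mul_add, mul_add, smul_mul_assoc, smul_mul_assoc, mul_smul_comm, mul_smul_comm,
      hYS, smul_zero, smul_zero, add_zero, pow_succ']
    have : m + 1 - 1 - m = 0 := by omega
    rw [this, pow_zero, one_mul, smul_add]
    abel

end Pool.Agent.Q216.NR
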