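import Pool.Agent.Q216.NR.Move
import Pool.Agent.Q216.NR.Count
import Pool.Agent.Q216.NR.Units
import Pool.Agent.Q216.NR.JJ

set_option autoImplicit false

namespace Pool.Agent.Q216.NR

open Module Matrix Polynomial
open scoped Quaternion

/-- Square matrices over the quaternions. -/
abbrev MM (n : ℕ) := Matrix (Fin n) (Fin n) ℍ[ℝ]

variable {n : ℕ}

/-- Action on row vectors. -/
noncomputable def T (M : MM n) : (Fin n → ℍ[ℝ]) →ₗ[ℍ[ℝ]] (Fin n → ℍ[ℝ]) :=
  Matrix.toLinearMapRight' M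

/-- The inverse of `T`. -/
noncomputable def Ti (f : (Fin n → ℍ[ℝ]) →ₗ[ℍ[ℝ]] (Fin n → ℍ[ℝ])) : MM n :=
  LinearMap.toMatrixRight' f

theorem T_Ti (f : (Fin n → ℍ[ℝ]) →ₗ[ℍ[ℝ]] (Fin n → ℍ[ℝ])) : T (Ti f) = f :=
  LinearEquiv.symm_apply_apply _ _

theorem T_inj {M N : MM n} (h : T M = T N) : M = N :=
  Matrix.toLinearMapRight'.injective h

theorem T_mul (M N : MM n) : T (M * N) = T N * T M :=
  Matrix.toLinearMapRight'_mul M N

theorem T_one : T (1 : MM n) = 1 :=
  Matrix.toLinearMapRight'_one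

theorem T_zero : T (0 : MM n) = 0 :=
  map_zero (Matrix.toLinearMapRight')

theorem T_add (M N : MM n) : T (M + N) = T M + T N :=
  map_add (Matrix.toLinearMapRight') M N

theorem T_neg (M : MM n) : T (-M) = -T M :=
  map_neg (Matrix.toLinearMapRight') M

theorem T_sum {α : Type} (s : Finset α) (f : α → MM n) : T (∑ i ∈ s, f i) = ∑ i ∈ s, T (f i) :=
  map_sum (Matrix.toLinearMapRight') f s

theorem T_pow (M : MM n) (k : ℕ) : T (M ^ k) = T M ^ k := by
  induction k with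
  | zero => rw [pow_zero, pow_zero, T_one]
  | succ k ih => rw [pow_succ, T_mul, ih, pow_succ']

theorem inv_cont (u : MM n) (hu : IsUnit u) : ContinuousAt Ring.inverse u := by
  letI i1 : NormedRing (MM n) := Matrix.linftyOpNormedRing
  letI i2 : NormedSpace ℝ (MM n) := Matrix.linftyOpNormedSpace
  haveI i3 := FiniteDimensional.complete ℝ (MM n)
  obtain ⟨w, rfl⟩ := hu
  exact NormedRing.inverse_continuousAt w

theorem rot_unit {B : Type*} [Ring B] [Algebra ℝ B] (e J : B) (he : e * e = e) (heJ : e * J = J)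
    (hJe : J * e = J) (hJJ : J * J = -e) (c s : ℝ) (hcs : c ^ 2 + s ^ 2 = 1) :
    (1 - e + c • e + s • J) * (1 - e + c • e + (-s) • J) = 1 := by
  have h1 : (1 - e + c • e + s • J) * (1 - e + c • e + (-s) • J) =
      1 + (c ^ 2 + s ^ 2 - 1) • e := by
    simp only [mul_add, add_mul, mul_sub, sub_mul, mul_one, one_mul, smul_mul_assoc,
      mul_smul_comm, he, heJ, hJe, hJJ]
    module
  rw [h1, hcs, sub_self, zero_smul, add_zero]

theorem units_joined (A : MM n) (hA : IsNilpotent A) (g : MM n) (hg : IsUnit g)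
    (hgA : g * A = A * g) : JoinedIn {u : MM n | IsUnit u ∧ u * A = A * u} g 1 := by
  have hint : IsIntegral ℝ g := Algebra.IsIntegral.isIntegral g
  obtain ⟨E, hE1, hE2⟩ := unit_path g hg hint
  have hE3 := aeval_commutes g A hgA E
  set e : MM n := aeval g E with he
  have hTA : IsNilpotent (T A) := by
    obtain ⟨m, hm⟩ := hA
    exact ⟨m, by rw [← T_pow, hm, T_zero]⟩
  obtain ⟨J', hJ1, hJ2, hJ3, hJ4⟩ := exists_Je (T A) (T e) hTA (by rw [← T_mul, hE1])
    (by rw [← T_mul, ← T_mul, hE3])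
  obtain ⟨J, rfl⟩ : ∃ J, T J = J' := ⟨Ti J', T_Ti J'⟩
  have hJe : J * e = J := T_inj (by rw [T_mul, hJ1])
  have heJ : e * J = J := T_inj (by rw [T_mul, hJ2])
  have hJJ : J * J = -e := T_inj (by rw [T_mul, hJ3, T_neg])
  have hJA : J * A = A * J := T_inj (by rw [T_mul, T_mul, hJ4])
  have j1 : JoinedIn {u : MM n | IsUnit u ∧ u * A = A * u} g (1 - (2 : ℝ) • e) := by
    refine JoinedIn.ofLine (f := fun s : ℝ => (1 - s) • g + s • (1 - (2 : ℝ) • e)) ?_ ?_ ?_ ?_
    · apply Continuous.continuousOn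
      fun_prop
    · simp
    · simp
    · rintro _ ⟨s, ⟨hs0, hs1⟩, rfl⟩
      refine ⟨hE2 s hs0 hs1, ?_⟩
      simp only [add_mul, mul_add, smul_mul_assoc, mul_smul_comm, sub_mul, mul_sub, hgA, hE3,
        one_mul, mul_one]
  have j2 : JoinedIn {u : MM n | IsUnit u ∧ u * A = A * u} 1 (1 - (2 : ℝ) • e) := by
    refine JoinedIn.ofLine (f := fun s : ℝ => 1 - e + (Real.cos (Real.pi * s)) • e +
      (Real.sin (Real.pi * s)) • J) ?_ ?_ ?_ ?_
    · apply Continuous.continuousOn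
      fun_prop
    · simp
    · simp only [mul_one, Real.cos_pi, Real.sin_pi]
      module
    · rintro _ ⟨s, _, rfl⟩
      refine ⟨?_, ?_⟩
      · refine ⟨⟨_, _, rot_unit e J hE1 heJ hJe hJJ (Real.cos (Real.pi * s))
          (Real.sin (Real.pi * s)) (Real.cos_sq_add_sin_sq _), ?_⟩, rfl⟩
        have := rot_unit e J hE1 heJ hJe hJJ (Real.cos (Real.pi * s))
          (-Real.sin (Real.pi * s)) (by rw [neg_sq]; exact Real.cos_sq_add_sin_sq _)
        rw [neg_neg] at this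
        exact this
      · simp only [add_mul, mul_add, smul_mul_assoc, mul_smul_comm, sub_mul, mul_sub, hE3, hJA,
          one_mul, mul_one]
  exact j1.trans j2.symm

theorem conj_joined (A : MM n) (hA : IsNilpotent A) (p : ℕ) (X g g' : MM n) (hX : X ^ p = A)
    (hgg : g' * g = 1) (hgg' : g * g' = 1) (hgA : g * A = A * g) :
    JoinedIn {Y : MM n | Y ^ p = A} X (g' * X * g) := by
  have hg : IsUnit g := ⟨⟨g, g', hgg', hgg⟩, rfl⟩
  have h1 := units_joined A hA g hg hgA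
  have hc : ContinuousOn (fun u : MM n => Ring.inverse u * X * u)
      {u : MM n | IsUnit u ∧ u * A = A * u} := by
    intro u hu
    apply ContinuousAt.continuousWithinAt
    exact ((inv_cont u hu.1).mul continuousAt_const).mul continuousAt_id
  have h2 := h1.map_continuousOn hc
  have e1 : Ring.inverse g * X * g = g' * X * g := by
    have : Ring.inverse g = g' := Ring.inverse_unit ⟨g, g', hgg', hgg⟩
    rw [this]
  have e2 : Ring.inverse (1 : MM n) * X * 1 = X := by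
    rw [Ring.inverse_one, one_mul, mul_one]
  simp only [e1, e2] at h2
  refine h2.symm.mono ?_
  rintro _ ⟨u, ⟨hu1, hu2⟩, rfl⟩
  obtain ⟨w, rfl⟩ := hu1
  simp only [Set.mem_ofPred_eq, Ring.inverse_unit]
  rw [Units.conj_pow', hX, mul_assoc, ← hu2, ← mul_assoc, Units.inv_mul, one_mul]

theorem improve (A : MM n) (hA : IsNilpotent A) (p : ℕ) (X : MM n) (hX : X ^ p = A) (hp : 0 < p) :
    ∃ (ι : Type) (_ : Fintype ι), Fintype.card ι = n ∧ ∀ m : ℕ,
      (∃ (X' : MM n) (k : ι → ℕ) (v : ι → (Fin n → ℍ[ℝ])), JoinedIn {Y : MM n | Y ^ p = A} X X' ∧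
        CD (T X') k v ∧ Star p k) ∨
      (∃ (X' : MM n) (k : ι → ℕ) (v : ι → (Fin n → ℍ[ℝ])), JoinedIn {Y : MM n | Y ^ p = A} X X' ∧
        CD (T X') k v ∧ m ≤ ∑ i, k i ^ 2) := by
  have hTX : IsNilpotent (T X) := by
    obtain ⟨m, hm⟩ := hA
    exact ⟨p * m, by rw [← T_pow, pow_mul, hX, hm, T_zero]⟩
  obtain ⟨ι, hι, k, v, hcd, hcard⟩ := exists_chain (D := ℍ[ℝ]) n (Fin n → ℍ[ℝ])
    (Module.finrank_fin_fun _) (T X) hTX
  refine ⟨ι, hι, hcard, ?_⟩
  intro m
  induction m with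
  | zero => exact Or.inr ⟨X, k, v, JoinedIn.refl hX, hcd, Nat.zero_le _⟩
  | succ m ih =>
    rcases ih with h | ⟨X', k, v, hj, hcd, hm⟩
    · exact Or.inl h
    · by_cases hstar : Star p k
      · exact Or.inl ⟨X', k, v, hj, hcd, hstar⟩
      · right
        unfold Star at hstar
        push Not at hstar
        obtain ⟨u, i, j, h1, h2, h3, h4, h5⟩ := hstar
        have hmove : ∃ (i1 i2 : ι), i1 ≠ i2 ∧ p * u < k i2 ∧ k i2 ≤ k i1 ∧ k i1 < p * (u + 1) := by
          rcases le_total (k i) (k j) with h | h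
          · exact ⟨j, i, Ne.symm h5, h1, h, h4⟩
          · exact ⟨i, j, h5, h3, h, h2⟩
        obtain ⟨i1, i2, hne, g1, g2, g3⟩ := hmove
        obtain ⟨Y', k', v', hYY, hwin, hcd', hlt⟩ := move hcd p u i1 i2 hne g1 g2 g3
        obtain ⟨Y, rfl⟩ : ∃ Y, T Y = Y' := ⟨Ti Y', T_Ti Y'⟩
        have hX'p : X' ^ p = A := hj.target_mem
        refine ⟨X' + Y, k', v', ?_, by rw [T_add]; exact hcd', by omega⟩
        apply hj.trans
        have hYY' : ∀ j, Y * X' ^ j * Y = 0 := by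
          intro j
          apply T_inj
          rw [T_mul, T_mul, T_pow, T_zero, ← mul_assoc]
          exact hYY j
        have hwin' : ∑ j ∈ Finset.range p, X' ^ (p - 1 - j) * Y * X' ^ j = 0 := by
          apply T_inj
          rw [T_sum, T_zero, ← hwin]
          apply Finset.sum_congr rfl
          intro j _
          rw [T_mul, T_mul, T_pow, T_pow, ← mul_assoc]
        refine JoinedIn.ofLine (f := fun s : ℝ => X' + s • Y) ?_ ?_ ?_ ?_
        · apply Continuous.continuousOn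
          fun_prop
        · simp
        · simp
        · rintro _ ⟨s, _, rfl⟩
          simp only [Set.mem_ofPred_eq]
          rw [pow_add_smul X' Y hYY' s p, hwin', smul_zero, add_zero, hX'p]

theorem to_star (A : MM n) (hA : IsNilpotent A) (p : ℕ) (X : MM n) (hX : X ^ p = A) (hp : 0 < p) :
    ∃ (ι : Type) (_ : Fintype ι) (X' : MM n) (k : ι → ℕ) (v : ι → (Fin n → ℍ[ℝ])),
      Fintype.card ι = n ∧ JoinedIn {Y : MM n | Y ^ p = A} X X' ∧ CD (T X') k v ∧ Star p k := by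
  obtain ⟨ι, hι, hcard, himp⟩ := improve A hA p X hX hp
  rcases himp (n ^ 2 + 1) with ⟨X', k, v, h1, h2, h3⟩ | ⟨X', k, v, h1, h2, h3⟩
  · exact ⟨ι, hι, X', k, v, hcard, h1, h2, h3⟩
  · exfalso
    have hs : ∑ i, k i = n := by rw [h2.2.2, Module.finrank_fin_fun]
    have : ∑ i, k i ^ 2 ≤ n ^ 2 := by
      calc ∑ i, k i ^ 2 ≤ ∑ i, k i * n := by
            apply Finset.sum_le_sum
            intro i _
            rw [pow_two]
            apply Nat.mul_le_mul_left
            rw [← hs]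
            exact Finset.single_le_sum (fun _ _ => Nat.zero_le _) (Finset.mem_univ i)
        _ = n ^ 2 := by rw [← Finset.sum_mul, hs, pow_two]
    omega

theorem main (A : MM n) (hA : IsNilpotent A) (p : ℕ) (hp : 0 < p) (X1 X2 : MM n)
    (hX1 : X1 ^ p = A) (hX2 : X2 ^ p = A) : JoinedIn {Y : MM n | Y ^ p = A} X1 X2 := by
  obtain ⟨ι, _, Z1, k, v, hc1, hj1, hcd1, hs1⟩ := to_star A hA p X1 hX1 hp
  obtain ⟨ι', _, Z2, k', v', hc2, hj2, hcd2, hs2⟩ := to_star A hA p X2 hX2 hp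
  have hZ1 : Z1 ^ p = A := hj1.target_mem
  have hZ2 : Z2 ^ p = A := hj2.target_mem
  have hR : ∀ j, ∑ i, (k i - p * j) = ∑ i, (k' i - p * j) := by
    intro j
    rw [← hcd1.rank (p * j), ← hcd2.rank (p * j), ← T_pow, ← T_pow, pow_mul, pow_mul, hZ1, hZ2]
  obtain ⟨σ, hσ⟩ := star_equiv hp hs1 hs2 (by rw [hc1, hc2]) hR
  obtain ⟨G, G', hG1, hG2, hG3⟩ := hcd1.intertwine hcd2 σ hσ
  obtain ⟨g, rfl⟩ : ∃ g, T g = G := ⟨Ti G, T_Ti G⟩
  obtain ⟨g', rfl⟩ : ∃ g', T g' = G' := ⟨Ti G', T_Ti G'⟩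
  have h1 : g' * g = 1 := T_inj (by rw [T_mul, hG1, T_one])
  have h2 : g * g' = 1 := T_inj (by rw [T_mul, hG2, T_one])
  have h3 : Z1 * g = g * Z2 := T_inj (by rw [T_mul, T_mul, hG3])
  have h4 : ∀ m : ℕ, Z1 ^ m * g = g * Z2 ^ m := by
    intro m
    induction m with
    | zero => simp
    | succ m ih => rw [pow_succ, mul_assoc, h3, ← mul_assoc, ih, mul_assoc, ← pow_succ]
  have h5 : g * A = A * g := by
    have := h4 p
    rw [hZ1, hZ2] at this
    exact this.symm
  have h6 : Z2 = g' * Z1 * g := by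
    rw [mul_assoc, h3, ← mul_assoc, h1, one_mul]
  have h7 := conj_joined A hA p Z1 g g' hZ1 h1 h2 h5
  rw [← h6] at h7
  exact (hj1.trans h7).trans hj2.symm

end Pool.Agent.Q216.NR
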