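import Pool.Agent.Q216.NR.Chain

set_option autoImplicit false

namespace Pool.Agent.Q216.NR

open Module

section
variable {D : Type} [DivisionRing D] {V : Type} [AddCommGroup V] [Module D V]

theorem move [Module.Finite D V] {ι : Type} [Fintype ι] {X : V →ₗ[D] V} {k : ι → ℕ}
    {v : ι → V} (h : CD X k v) (p u : ℕ) (i1 i2 : ι) (hne : i1 ≠ i2)
    (h1 : p * u < k i2) (h2 : k i2 ≤ k i1) (h3 : k i1 < p * (u + 1)) :
    ∃ (Y : V →ₗ[D] V) (k' : ι → ℕ) (v' : ι → V),
      (∀ j, Y * X ^ j * Y = 0) ∧
      (∑ j ∈ Finset.range p, X ^ j * Y * X ^ (p - 1 - j) = 0) ∧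
      CD (X + Y) k' v' ∧ ∑ i, k i ^ 2 < ∑ i, k' i ^ 2 := by
  classical
  obtain ⟨b, hb⟩ := h.basis
  obtain ⟨δ, hδ⟩ : ∃ δ, k i1 = k i2 + δ := ⟨k i1 - k i2, by omega⟩
  have hp : 0 < p := by
    rcases Nat.eq_zero_or_pos p with h | h
    · subst h; omega
    · exact h
  have hmul : p * (u + 1) = p * u + p := by ring
  let DD : ℕ → D := fun q => if δ < q % p then 1 else 0
  have hDD0 : ∀ q, q ≤ δ → DD q = 0 := by
    intro q hq
    have : q % p = q := Nat.mod_eq_of_lt (by omega)
    simp only [DD, this]
    rw [if_neg (by omega)]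
  have hDDp : ∀ q, DD (q + p) = DD q := by
    intro q
    simp only [DD, Nat.add_mod_right]
  have hDD1 : DD (δ + 1) = 1 := by
    have : (δ + 1) % p = δ + 1 := Nat.mod_eq_of_lt (by omega)
    simp only [DD, this]
    rw [if_pos (by omega)]
  have hDDa : DD (k i1) = 1 := by
    obtain ⟨r, hr⟩ : ∃ r, k i1 = r + p * u := ⟨k i1 - p * u, by omega⟩
    have : (k i1) % p = r := by
      rw [hr, Nat.add_mul_mod_self_left, Nat.mod_eq_of_lt (by omega)]
    simp only [DD, this]
    rw [if_pos (by omega)]
  let c : ℕ → D := fun q => DD (q + 1) - DD q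
  have hc : ∀ q, c q = DD (q + 1) - DD q := fun q => rfl
  have hc0 : ∀ q, q < δ → c q = 0 := by
    intro q hq
    rw [hc, hDD0 _ (by omega), hDD0 _ (by omega), sub_self]
  obtain ⟨Y, hYb⟩ : ∃ Y : V →ₗ[D] V, ∀ i (j : Fin (k i)), Y ((X ^ (j : ℕ)) (v i)) =
      if i = i1 then c (j : ℕ) • (X ^ ((j : ℕ) - δ)) (v i2) else 0 := by
    refine ⟨b.constr ℕ (fun s => if s.1 = i1 then
      c (s.2 : ℕ) • (X ^ ((s.2 : ℕ) - δ)) (v i2) else 0), fun i j => ?_⟩
    rw [← hb]
    exact b.constr_basis ℕ _ ⟨i, j⟩
  have hY1 : ∀ q, Y ((X ^ q) (v i1)) = c q • (X ^ (q - δ)) (v i2) := by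
    intro q
    by_cases hq : q < k i1
    · have := hYb i1 ⟨q, hq⟩
      rw [if_pos rfl] at this
      exact this
    · rw [h.zero_of_le (by omega), h.zero_of_le (by omega), map_zero, smul_zero]
  have hY2 : ∀ i, i ≠ i1 → ∀ q, Y ((X ^ q) (v i)) = 0 := by
    intro i hi q
    by_cases hq : q < k i
    · have := hYb i ⟨q, hq⟩
      rw [if_neg hi] at this
      exact this
    · rw [h.zero_of_le (by omega), map_zero]
  have hcomp : ∀ j m (x : V), (X ^ j) ((X ^ m) x) = (X ^ (j + m)) x := by
    intro j m x
    rw [pow_add]; rfl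
  have hterm : ∀ m j, (X ^ j) (Y ((X ^ m) (v i1))) = c m • (X ^ (j + m - δ)) (v i2) := by
    intro m j
    rw [hY1, map_smul, hcomp]
    by_cases hm : m < δ
    · rw [hc0 m hm, zero_smul, zero_smul]
    · congr 3
      omega
  have hYY : ∀ j, Y * X ^ j * Y = 0 := by
    intro j
    apply b.ext
    rintro ⟨i, q⟩
    rw [hb]
    simp only [Module.End.mul_apply, LinearMap.zero_apply]
    by_cases hi : i = i1
    · subst hi
      rw [hterm, map_smul, hY2 i2 (Ne.symm hne), smul_zero]
    · rw [hY2 i hi, map_zero, map_zero]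
  have hwin : ∑ j ∈ Finset.range p, X ^ j * Y * X ^ (p - 1 - j) = 0 := by
    apply b.ext
    rintro ⟨i, q⟩
    rw [hb]
    simp only [LinearMap.sum_apply, Module.End.mul_apply, LinearMap.zero_apply]
    by_cases hi : i = i1
    · subst hi
      have e1 : ∀ j ∈ Finset.range p, (X ^ j) (Y ((X ^ (p - 1 - j)) ((X ^ (q : ℕ)) (v i)))) =
          c (p - 1 - j + q) • (X ^ (p - 1 + q - δ)) (v i2) := by
        intro j hj
        rw [Finset.mem_range] at hj
        rw [hcomp, hterm]
        congr 3
        omega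
      rw [Finset.sum_congr rfl e1, ← Finset.sum_smul]
      have e2 : ∑ j ∈ Finset.range p, c (p - 1 - j + q) = 0 := by
        rw [Finset.sum_range_reflect (fun j => c (j + q)) p]
        have e3 : ∀ j ∈ Finset.range p, c (j + q) = DD ((j + 1) + q) - DD (j + q) := by
          intro j _
          rw [hc]
          congr 2
          omega
        rw [Finset.sum_congr rfl e3, Finset.sum_range_sub (fun j => DD (j + q)) p]
        rw [add_comm p, hDDp, zero_add, sub_self]
      rw [e2, zero_smul]
    · apply Finset.sum_eq_zero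
      intro j _
      rw [hcomp, hY2 i hi, map_zero]
  have hX2 : ∀ i, i ≠ i1 → ∀ m, ((X + Y) ^ m) (v i) = (X ^ m) (v i) := by
    intro i hi m
    induction m with
    | zero => simp
    | succ m ih =>
      rw [pow_succ', Module.End.mul_apply, ih, LinearMap.add_apply, hY2 i hi, add_zero, pow_succ',
        Module.End.mul_apply]
  have hX1 : ∀ m, ((X + Y) ^ m) (v i1) = (X ^ m) (v i1) + DD m • (X ^ (m - 1 - δ)) (v i2) := by
    intro m
    induction m with
    | zero => simp [hDD0 0 (by omega)]
    | succ m ih =>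
      rw [pow_succ', Module.End.mul_apply, ih, LinearMap.add_apply, map_add, map_add, map_smul,
        map_smul, hY2 i2 (Ne.symm hne), smul_zero, add_zero, hY1]
      have e1 : X ((X ^ m) (v i1)) = (X ^ (m + 1)) (v i1) := by
        rw [pow_succ', Module.End.mul_apply]
      have e2 : X ((X ^ (m - 1 - δ)) (v i2)) = (X ^ (m - 1 - δ + 1)) (v i2) := by
        rw [pow_succ', Module.End.mul_apply]
      rw [e1, e2]
      have e3 : DD m • (X ^ (m - 1 - δ + 1)) (v i2) = DD m • (X ^ (m - δ)) (v i2) := by
        by_cases hm : m ≤ δ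
        · rw [hDD0 m hm, zero_smul, zero_smul]
        · congr 3
          omega
      rw [e3, hc]
      have e4 : m + 1 - 1 - δ = m - δ := by omega
      rw [e4, sub_smul]
      abel
  let k' : ι → ℕ := fun i => if i = i1 then k i1 + 1 else if i = i2 then k i2 - 1 else k i
  let v' : ι → V := fun i => if i = i2 then v i2 - ((X + Y) ^ (δ + 1)) (v i1) else v i
  have hk1 : k' i1 = k i1 + 1 := by simp [k']
  have hk2 : k' i2 = k i2 - 1 := by simp [k', Ne.symm hne]
  have hv1 : v' i1 = v i1 := by simp [v', hne]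
  have hv2 : v' i2 = v i2 - ((X + Y) ^ (δ + 1)) (v i1) := by simp [v']
  have hko : ∀ i, i ≠ i1 → i ≠ i2 → k' i = k i := by intro i ha hb; simp [k', ha, hb]
  have hvo : ∀ i, i ≠ i2 → v' i = v i := by intro i ha; simp [v', ha]
  refine ⟨Y, k', v', hYY, hwin, ⟨?_, ?_, ?_⟩, ?_⟩
  · intro i
    by_cases hi1 : i = i1
    · subst hi1
      rw [hk1, hv1, hX1, h.zero_of_le (by omega)]
      rw [h.zero_of_le (by omega)]
      simp
    · by_cases hi2 : i = i2
      · subst hi2
        rw [hk2, hv2, map_sub, ← Module.End.mul_apply, ← pow_add, hX2 i hi1]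
        have e1 : k i - 1 + (δ + 1) = k i1 := by omega
        rw [e1, hX1, h.zero_of_le (le_refl (k i1)), hDDa, one_smul, zero_add]
        have e2 : k i1 - 1 - δ = k i - 1 := by omega
        rw [e2, sub_self]
      · rw [hko i hi1 hi2, hvo i hi2, hX2 i hi1, h.1]
  · intro S hS1 hS2
    have hpowS : ∀ m x, x ∈ S → ((X + Y) ^ m) x ∈ S := by
      intro m x hx
      induction m with
      | zero => simpa using hx
      | succ m ih =>
        rw [pow_succ', Module.End.mul_apply]
        exact hS2 _ ih
    have hmv1 : v i1 ∈ S := by rw [← hv1]; exact hS1 i1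
    have hmv2 : v i2 ∈ S := by
      have e1 := hS1 i2
      rw [hv2] at e1
      have e2 := add_mem e1 (hpowS (δ + 1) _ hmv1)
      rwa [sub_add_cancel] at e2
    have hall : ∀ i, v i ∈ S := by
      intro i
      by_cases hi2 : i = i2
      · rw [hi2]; exact hmv2
      · rw [← hvo i hi2]; exact hS1 i
    have hYS : ∀ x, Y x ∈ S := by
      intro x
      have hx : x ∈ Submodule.span D (Set.range b) := by rw [b.span_eq]; trivial
      induction hx using Submodule.span_induction with
      | mem x hx =>
        obtain ⟨⟨i, q⟩, rfl⟩ := hx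
        rw [hb]
        by_cases hi : i = i1
        · subst hi
          rw [hY1]
          apply Submodule.smul_mem
          rw [← hX2 i2 (Ne.symm hne)]
          exact hpowS _ _ hmv2
        · rw [hY2 i hi]
          exact zero_mem _
      | zero => simp
      | add x y _ _ hx hy => rw [map_add]; exact add_mem hx hy
      | smul a x _ hx => rw [map_smul]; exact Submodule.smul_mem _ _ hx
    apply h.2.1 S hall
    intro x hx
    have e1 := hS2 x hx
    rw [LinearMap.add_apply] at e1
    have e2 := sub_mem e1 (hYS x)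
    rwa [add_sub_cancel_right] at e2
  · rw [← h.2.2]
    have e1 : ∀ i, k' i + (if i = i2 then 1 else 0) = k i + (if i = i1 then 1 else 0) := by
      intro i
      by_cases hi1 : i = i1
      · subst hi1
        rw [hk1, if_neg hne, if_pos rfl]
      · by_cases hi2 : i = i2
        · subst hi2
          rw [hk2, if_pos rfl, if_neg hi1]
          omega
        · rw [hko i hi1 hi2, if_neg hi1, if_neg hi2]
    have e2 := Finset.sum_congr (rfl : (Finset.univ : Finset ι) = Finset.univ)
      (fun i _ => e1 i)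
    rw [Finset.sum_add_distrib, Finset.sum_add_distrib] at e2
    simp only [Finset.sum_ite_eq', Finset.mem_univ, if_true] at e2
    omega
  · have e1 : ∀ i, k' i ^ 2 + (if i = i2 then 2 * k i2 - 1 else 0) =
        k i ^ 2 + (if i = i1 then 2 * k i1 + 1 else 0) := by
      intro i
      by_cases hi1 : i = i1
      · subst hi1
        rw [hk1, if_neg hne, if_pos rfl]
        ring
      · by_cases hi2 : i = i2
        · subst hi2
          rw [hk2, if_pos rfl, if_neg hi1]
          obtain ⟨m, hm⟩ : ∃ m, k i = m + 1 := ⟨k i - 1, by omega⟩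
          rw [hm]
          have : 2 * (m + 1) - 1 = 2 * m + 1 := by omega
          rw [this]
          simp only [Nat.add_sub_cancel]
          ring
        · rw [hko i hi1 hi2, if_neg hi1, if_neg hi2]
    have e2 := Finset.sum_congr (rfl : (Finset.univ : Finset ι) = Finset.univ)
      (fun i _ => e1 i)
    rw [Finset.sum_add_distrib, Finset.sum_add_distrib] at e2
    simp only [Finset.sum_ite_eq', Finset.mem_univ, if_true] at e2
    omega

end

end Pool.Agent.Q216.NR
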